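import Pool.Agent.Helper51.CX.St

set_option autoImplicit false

/-!
# Project CX, module B3: after the second step at most one member vanishes
-/

open Module Pool.Agent.Helper51.CX

namespace Pool.Agent.Helper70.CX

/-- **B3** -/
theorem hB3 : StCRA → StBDP → StBDD → StB3 := by
  intro hCRA hBDP hBDD K _ _ _ j h z d hS hF hjd hfar hh hht k hk hkj l hl hlj hkl hMk hMl
  have hlo := hS.lo
  have hhi := hS.hi
  -- positions
  have hLz' : L j (z + d) = 10 ^ 60 := by rw [L_add, hS.tj, hjd, add_zero]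
  obtain ⟨p1, p2, p3, p4, p5, p6, p7, p8, p9, p10, p11⟩ := hBDP K j hlo hhi (z + d) hF hLz'
  obtain ⟨r1, r2, r3, -, -, -, -, -, -, -, -⟩ := hBDP K j hlo hhi z hS.fe hS.tj
  obtain ⟨q1, q2, q3, q4, q5, q6, q7, -, -⟩ := hBDD K j hlo hhi d
  have hww : (10 : K) ^ 40 * |ww j (z + d)| = 10 ^ 20 * pp j (z + d) - el j (z + d) := by
    rcases hh with rfl | rfl
    · exact p10 hht
    · exact p11 hht
  have hwz : ww j z = 0 := by
    simp only [ww]
    rw [hS.e0, hS.e1]
    ring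
  have hwd : ww j (z + d) = ww j d := by rw [ww_add, hwz, zero_add]
  rw [hwd] at hww
  have hz5 : z 5 ≤ 1 + 1 / 10 ^ 14 := by
    have h1 := (abs_le.1 (show |z 5 - 1| ≤ 1 / 10 ^ 14 by
      rw [le_div_iff₀ (by positivity)]; linarith)).2
    linarith
  have hz5' : (z + d) 5 ≤ 1 + 1 / 10 ^ 14 := by
    have h1 := (abs_le.1 (show |(z + d) 5 - 1| ≤ 1 / 10 ^ 14 by
      rw [le_div_iff₀ (by positivity)]; linarith)).2
    linarith
  have hel : |el j (z + d)| ≤ 4 := by
    have : (3 : K) * (1 + 1 / 10 ^ 14) ≤ 4 := by norm_num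
    linarith
  have hel' := (abs_le.1 hel).2
  have hbig : (10 : K) ^ 20 * 1895 - 4 ≤ 10 ^ 40 * |ww j d| := by
    have h1 : (1895 : K) ≤ pp j (z + d) := by linarith
    have h2 : (10 : K) ^ 20 * 1895 ≤ 10 ^ 20 * pp j (z + d) :=
      mul_le_mul_of_nonneg_left h1 (by positivity)
    linarith
  -- the two gap members
  have hgap : L (ga j) d = 0 → L (gb j) d = 0 → False := by
    intro e1 e2
    have e3 := (q4 hjd e1 e2).1
    rw [e3, abs_zero, mul_zero] at hbig
    norm_num at hbig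
  obtain ⟨-, -, -, -, -, -, hga, hgb, -⟩ := hT1 j hhi hlo
  by_cases c1 : k = ga j ∧ l = gb j
  · obtain ⟨rfl, rfl⟩ := c1
    exact hgap ((Mem_lt (by omega) d).1 hMk) ((Mem_lt (by omega) d).1 hMl)
  by_cases c2 : k = gb j ∧ l = ga j
  · obtain ⟨rfl, rfl⟩ := c2
    exact hgap ((Mem_lt (by omega) d).1 hMl) ((Mem_lt (by omega) d).1 hMk)
  have hn := hCRA K j hlo hhi k hk hkj l hl hlj hkl c1 c2 d hjd hMk hMl
  have hm := mm_le z d
  have hm7 : mm d ≤ 7 := by
    have : (6 : K) * (1 + 1 / 10 ^ 14) ≤ 7 := by norm_num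
    linarith
  have hn7 : (10 : K) ^ 40 * nn d ≤ 10 ^ 10 * 7 := by
    have e1 : (10 : K) ^ 40 * nn d = 10 ^ 10 * (10 ^ 30 * nn d) := by ring
    rw [e1]
    exact mul_le_mul_of_nonneg_left (hn.trans hm7) (by positivity)
  have hw7 : (10 : K) ^ 40 * |ww j d| ≤ 63 * (10 ^ 10 * 7) := by
    have e1 : (10 : K) ^ 40 * |ww j d| ≤ 10 ^ 40 * (63 * nn d) :=
      mul_le_mul_of_nonneg_left q5 (by positivity)
    have e2 : (10 : K) ^ 40 * (63 * nn d) = 63 * (10 ^ 40 * nn d) := by ring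
    rw [e2] at e1
    linarith
  have hfin := hbig.trans hw7
  norm_num at hfin

end Pool.Agent.Helper70.CX
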